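import Pool.Graph.R_seed8.R460.GH.Asm

set_option autoImplicit false

/-!
# From a mean square in a residue class to families of nearly minimal energy

Let `H(β) = ∑ cv(n) e(n β)`, the sum over the integers `n ≤ 2 N` of a residue class. If the mean square of
`cv` is small, then `H` is small everywhere, and the first moment of `H` is bounded since `H` is a sum of
products. By Hölder's inequality the sum of `|cv|` over a family in the class is bounded in terms of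
its additive energy.
-/

namespace Pool.Agent.KS6_25

open Finset
open Pool.Agent.H807R2.Dav (ee)
open Pool.Agent.Y883.GJ
open Pool.Agent.R460.GS (cv tr conv_tr cl_tr norm_tr_le)
open Pool.Agent.Y614.GJ.Core (P P_nonneg S_le)

/-- The additive energy of order `h` of a finite family: the number of the solutions of
`s (a 1) + ... + s (a h) = s (b 1) + ... + s (b h)`. -/
noncomputable def energy (h : ℕ) {ι : Type} [Fintype ι] (s : ι → ℕ) : ℕ :=
  Nat.card {w : (Fin h → ι) × (Fin h → ι) // ∑ j, s (w.1 j) = ∑ j, s (w.2 j)}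

/-- the inequality of Hölder with weights -/
lemma wpow {M : ℕ} (a b : ℕ → ℝ) (ha : ∀ t, 0 ≤ a t) (hb : ∀ t, 0 ≤ b t) (n : ℕ) :
    (∑ t ∈ range M, a t * b t) ^ (n + 1) ≤ (∑ t ∈ range M, a t) ^ n * ∑ t ∈ range M, a t * b t ^ (n + 1) := by
  obtain ⟨W, hW⟩ : ∃ W, W = ∑ t ∈ range M, a t := ⟨_, rfl⟩
  have hW0 : 0 ≤ W := by rw [hW]; exact sum_nonneg fun t _ => ha t
  rcases hW0.eq_or_lt with h0 | h0
  · have h1 : ∀ t ∈ range M, a t = 0 := by
      rw [← sum_eq_zero_iff_of_nonneg fun t _ => ha t, ← hW, ← h0]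
    have h2 : ∑ t ∈ range M, a t * b t = 0 := sum_eq_zero fun t ht => by rw [h1 t ht, zero_mul]
    have h3 : ∑ t ∈ range M, a t * b t ^ (n + 1) = 0 := sum_eq_zero fun t ht => by rw [h1 t ht, zero_mul]
    rw [h2, h3, mul_zero, zero_pow (by omega)]
  · have h1 := Real.pow_arith_mean_le_arith_mean_pow (range M) (fun t => a t / W) b
      (fun t _ => div_nonneg (ha t) hW0) (by rw [← sum_div, ← hW, div_self h0.ne']) (fun t _ => hb t) (n + 1)
    have h2 : ∑ t ∈ range M, a t / W * b t = (∑ t ∈ range M, a t * b t) / W := by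
      rw [sum_div]
      exact sum_congr rfl fun t _ => by ring
    have h3 : ∑ t ∈ range M, a t / W * b t ^ (n + 1) = (∑ t ∈ range M, a t * b t ^ (n + 1)) / W := by
      rw [sum_div]
      exact sum_congr rfl fun t _ => by ring
    rw [h2, h3, div_pow, div_le_div_iff₀ (by positivity) h0] at h1
    rw [← hW]
    have h4 : (∑ t ∈ range M, a t * b t) ^ (n + 1) * W ≤ (W ^ n * ∑ t ∈ range M, a t * b t ^ (n + 1)) * W := by
      calc _ ≤ _ := h1
        _ = _ := by ring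
    exact le_of_mul_le_mul_right h4 h0

/-- the power of an exponential sum over a family -/
lemma pow_expandF (h : ℕ) {ι : Type} [Fintype ι] (s : ι → ℕ) (c : ι → ℂ) (M : ℕ) (t : ℝ) :
    (∑ i, c i * ee (t * (((-(s i : ℤ) : ℤ) : ℝ) / M))) ^ h =
      ∑ v : Fin h → ι, (∏ j, c (v j)) * ee (t * (((-(∑ j, (s (v j) : ℤ)) : ℤ) : ℝ) / M)) := by
  rw [Fintype.sum_pow]
  refine sum_congr rfl fun v _ => ?_
  rw [prod_mul_distrib]
  congr 1
  have h2 : ∀ (J : Finset (Fin h)), ∏ i ∈ J, ee (t * (((-(s (v i) : ℤ) : ℤ) : ℝ) / M)) =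
      ee (t * (((-(∑ i ∈ J, (s (v i) : ℤ)) : ℤ) : ℝ) / M)) := by
    intro J
    induction J using Finset.induction_on with
    | empty => simp [Pool.Agent.H807R2.Dav.ee_zero]
    | insert a J ha ih =>
      rw [prod_insert ha, sum_insert ha, ih, ← Pool.Agent.H807R2.Dav.ee_add]
      congr 1
      push_cast
      ring
  exact h2 univ

/-- the even moment of the exponential sum over a family -/
lemma moment_le (h N M : ℕ) (hM : 1 ≤ M) (hMN : h * N < M) {ι : Type} [Fintype ι] (s : ι → ℕ)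
    (hs : ∀ i, s i ≤ N) (c : ι → ℂ) (hc : ∀ i, ‖c i‖ ≤ 1) :
    ∑ t ∈ range M, ‖∑ i, c i * ee ((t : ℝ) * (((-(s i : ℤ) : ℤ) : ℝ) / M))‖ ^ (2 * h) ≤
      M * (energy h s : ℝ) := by
  classical
  have h1 : ∀ t : ℕ, ‖∑ i, c i * ee ((t : ℝ) * (((-(s i : ℤ) : ℤ) : ℝ) / M))‖ ^ (2 * h) =
      ‖∑ v : Fin h → ι, (∏ j, c (v j)) * ee ((t : ℝ) * (((-(∑ j, (s (v j) : ℤ)) : ℤ) : ℝ) / M))‖ ^ 2 := by
    intro t
    rw [← pow_expandF, norm_pow, ← pow_mul, mul_comm 2 h]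
  rw [sum_congr rfl fun t _ => h1 t]
  have hC : ∀ v ∈ (univ : Finset (Fin h → ι)), ‖∏ j, c (v j)‖ ≤ 1 := by
    intro v _
    rw [norm_prod]
    exact prod_le_one (fun _ _ => norm_nonneg _) (fun i _ => hc _)
  refine (Pool.Agent.H373R2.T7.majorant (univ : Finset (Fin h → ι)) (fun v => ∏ j, c (v j))
    (fun v => -(∑ j, (s (v j) : ℤ))) M hM hC).trans (le_of_eq ?_)
  have h2 := Pool.Agent.H373R2.T7.sq_expand (univ : Finset (Fin h → ι)) (fun _ => 1)
    (fun v => -(∑ j, (s (v j) : ℤ))) M hM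
  simp only [one_mul, map_one] at h2
  have h3 : ∀ v w : Fin h → ι, ((M : ℤ) ∣ -(∑ j, (s (v j) : ℤ)) - -(∑ j, (s (w j) : ℤ))) ↔
      ∑ j, s (v j) = ∑ j, s (w j) := by
    intro v w
    have hb : ∀ u : Fin h → ι, ∑ j, s (u j) ≤ h * N := by
      intro u
      refine (sum_le_sum fun i _ => hs (u i)).trans ?_
      rw [sum_const, card_univ, Fintype.card_fin, smul_eq_mul]
    have b1 := hb v
    have b2 := hb w
    have e1 : (∑ j, (s (v j) : ℤ)) = ((∑ j, s (v j) : ℕ) : ℤ) := by push_cast; rfl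
    have e2 : (∑ j, (s (w j) : ℤ)) = ((∑ j, s (w j) : ℕ) : ℤ) := by push_cast; rfl
    rw [e1, e2]
    constructor
    · intro hd
      have h4 : |(-((∑ j, s (v j) : ℕ) : ℤ) - -((∑ j, s (w j) : ℕ) : ℤ))| < (M : ℤ) := by
        rw [abs_lt]
        constructor <;> omega
      have := Int.eq_zero_of_abs_lt_dvd hd h4
      omega
    · intro he
      rw [he, sub_self]
      exact dvd_zero _
  have h4 : ∑ v : Fin h → ι, ∑ w : Fin h → ι,
      (if (M : ℤ) ∣ -(∑ j, (s (v j) : ℤ)) - -(∑ j, (s (w j) : ℤ)) then (M : ℂ) else 0) =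
      (((M : ℝ) * (energy h s : ℝ) : ℝ) : ℂ) := by
    have h5 : ∑ v : Fin h → ι, ∑ w : Fin h → ι,
        (if (M : ℤ) ∣ -(∑ j, (s (v j) : ℤ)) - -(∑ j, (s (w j) : ℤ)) then (M : ℂ) else 0) =
        ∑ v : Fin h → ι, ∑ w : Fin h → ι, (if ∑ j, s (v j) = ∑ j, s (w j) then (M : ℂ) else 0) := by
      refine sum_congr rfl fun v _ => sum_congr rfl fun w _ => ?_
      simp only [h3]
    rw [h5, ← Fintype.sum_prod_type' (fun v w : Fin h → ι => (if ∑ j, s (v j) = ∑ j, s (w j) then (M : ℂ) else 0)),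
      ← sum_filter, sum_const, nsmul_eq_mul]
    have h6 : energy h s = ((univ : Finset ((Fin h → ι) × (Fin h → ι))).filter
        (fun w => ∑ j, s (w.1 j) = ∑ j, s (w.2 j))).card := by
      unfold energy
      rw [Nat.card_eq_fintype_card, Fintype.card_subtype]
    rw [h6]
    push_cast
    ring
  rw [h4] at h2
  exact_mod_cast h2

/-- the value of a convolution from its Fourier transform in the class -/
lemma recover {q N M : ℕ} [NeZero q] (hM : 2 * N < M) (F G : ℕ → ℂ) (a : ZMod q) (n : ℕ) (hn1 : 1 ≤ n)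
    (hn : n ≤ 2 * N) (hna : (n : ZMod q) = a) :
    (M : ℂ) * (∑ b ∈ Icc 1 N, ∑ c ∈ Icc 1 N, if b + c = n then F b * G c else 0) =
      ∑ t ∈ range M, (∑ l : ZMod q, cl q N F ((t : ℝ) / (M : ℕ)) l * cl q N G ((t : ℝ) / (M : ℕ)) (a - l)) *
        ee ((t : ℝ) * (((-(n : ℤ) : ℤ) : ℝ) / M)) := by
  obtain ⟨f, hf⟩ : ∃ f : ℕ → ℂ, f = fun n => ∑ b ∈ Icc 1 N, ∑ c ∈ Icc 1 N, if b + c = n then F b * G c else 0 :=
    ⟨_, rfl⟩
  have hfn : (∑ b ∈ Icc 1 N, ∑ c ∈ Icc 1 N, if b + c = n then F b * G c else 0) = f n := by rw [hf]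
  rw [hfn]
  have h1 : ∀ t ∈ range M, (∑ l : ZMod q, cl q N F ((t : ℝ) / (M : ℕ)) l * cl q N G ((t : ℝ) / (M : ℕ)) (a - l)) *
        ee ((t : ℝ) * (((-(n : ℤ) : ℤ) : ℝ) / M)) =
      ∑ m ∈ (Icc 1 (2 * N)).filter (fun m : ℕ => (m : ZMod q) = a), f m *
        (ee ((m : ℝ) * ((t : ℝ) / (M : ℕ))) * (starRingEnd ℂ) (ee ((n : ℝ) * ((t : ℝ) / (M : ℕ))))) := by
    intro t _
    rw [Pool.Agent.Y872.GJ.conv, sum_mul]
    refine sum_congr rfl fun m _ => ?_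
    rw [Pool.Agent.Y872.GJ.conj_ee, hf]
    simp only
    rw [mul_assoc]
    congr 3
    push_cast
    ring
  rw [sum_congr rfl h1, sum_comm]
  have h2 : ∀ m ∈ (Icc 1 (2 * N)).filter (fun m : ℕ => (m : ZMod q) = a),
      ∑ t ∈ range M, f m * (ee ((m : ℝ) * ((t : ℝ) / (M : ℕ))) *
        (starRingEnd ℂ) (ee ((n : ℝ) * ((t : ℝ) / (M : ℕ))))) = if m = n then (M : ℂ) * f n else 0 := by
    intro m hm
    rw [mem_filter, mem_Icc] at hm
    rw [← mul_sum, Pool.Agent.Y872.GJ.orth M m n (by omega) (by omega)]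
    split_ifs with h
    · rw [h]; ring
    · rw [mul_zero]
  rw [sum_congr rfl h2, sum_ite_eq', if_pos]
  rw [mem_filter, mem_Icc]
  exact ⟨⟨hn1, hn⟩, hna⟩

/-- the transfer from the mean square to families -/
theorem transfer {N q h : ℕ} [NeZero q] (hN : 1 ≤ N) (hh : 1 ≤ h) (hqN : q ≤ N) (F G : ℕ → ℂ) {y₁ y₂ : ℕ}
    (hy₁ : y₁ ≤ N) (hy₂ : y₂ ≤ N) (a : ZMod q) {K R : ℝ} (hF : ∑ n ∈ Icc 1 N, ‖F n‖ ^ 2 ≤ K)
    (hG : ∑ n ∈ Icc 1 N, ‖G n‖ ^ 2 ≤ K)
    (hms : ∑ n ∈ (Icc 1 (2 * N)).filter (fun n : ℕ => (n : ZMod q) = a), ‖cv F G y₁ y₂ n‖ ^ 2 ≤ R)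
    {ι : Type} [Fintype ι] (s : ι → ℕ) (hs : ∀ i, 1 ≤ s i ∧ s i ≤ N ∧ (s i : ZMod q) = a) (S : Finset ι) :
    (∑ i ∈ S, ‖cv F G y₁ y₂ (s i)‖) ^ (2 * h) ≤
      K ^ (2 * h - 1) * (Real.sqrt (3 * N / q * R) * (energy h s : ℝ)) := by
  classical
  have hK0 : 0 ≤ K := le_trans (sum_nonneg fun _ _ => sq_nonneg _) hF
  obtain ⟨N', hN'⟩ : ∃ N', N' = h * N := ⟨_, rfl⟩
  have hNN' : N ≤ N' := by rw [hN']; exact Nat.le_mul_of_pos_left _ hh
  obtain ⟨M, hM⟩ : ∃ M, M = 2 * N' + 1 := ⟨_, rfl⟩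
  have hM1 : 1 ≤ M := by omega
  have hM0 : (0 : ℝ) < M := by exact_mod_cast hM1
  have hy₁' : y₁ ≤ N' := hy₁.trans hNN'
  have hy₂' : y₂ ≤ N' := hy₂.trans hNN'
  obtain ⟨F', hF'⟩ : ∃ F', F' = tr y₁ F := ⟨_, rfl⟩
  obtain ⟨G', hG'⟩ : ∃ G', G' = tr y₂ G := ⟨_, rfl⟩
  have hcv : ∀ n, (∑ b ∈ Icc 1 N, ∑ c ∈ Icc 1 N, if b + c = n then F' b * G' c else 0) = cv F G y₁ y₂ n := by
    intro n
    rw [hF', hG', conv_tr hy₁ hy₂]
    rfl
  obtain ⟨Hf, hHf⟩ : ∃ Hf : ℕ → ℂ, Hf = fun t : ℕ => ∑ l : ZMod q, cl q N F' ((t : ℝ) / (M : ℕ)) l *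
    cl q N G' ((t : ℝ) / (M : ℕ)) (a - l) := ⟨_, rfl⟩
  -- the supremum
  obtain ⟨δ, hδ⟩ : ∃ δ, δ = Real.sqrt (3 * N / q * R) := ⟨_, rfl⟩
  have hq0 : (0 : ℝ) < q := by exact_mod_cast NeZero.pos q
  have hcard : ((((Icc 1 (2 * N)).filter (fun n : ℕ => (n : ZMod q) = a)).card : ℕ) : ℝ) ≤ 3 * N / q := by
    have h1 := Pool.Agent.Y883.T4.class_le N q a.val (NeZero.pos q)
      ((Icc 1 (2 * N)).filter (fun n : ℕ => (n : ZMod q) = a)) (2 * N) (by positivity) (by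
        intro n hn
        rw [mem_filter, mem_Icc] at hn
        refine ⟨?_, by exact_mod_cast hn.1.2⟩
        rw [← ZMod.natCast_eq_natCast_iff', hn.2, ZMod.natCast_zmod_val])
    have h2 : (1 : ℝ) ≤ N / q := by
      rw [_root_.one_le_div hq0]
      exact_mod_cast hqN
    calc _ ≤ 2 * (N : ℝ) / q + 1 := h1
      _ ≤ 2 * (N : ℝ) / q + N / q := by linarith
      _ = 3 * N / q := by ring
  have hsup : ∀ t, ‖Hf t‖ ≤ δ := by
    intro t
    rw [hHf]
    simp only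
    rw [Pool.Agent.Y872.GJ.conv]
    refine (norm_sum_le _ _).trans ?_
    have h1 : ∀ n ∈ (Icc 1 (2 * N)).filter (fun n : ℕ => (n : ZMod q) = a),
        ‖(∑ b ∈ Icc 1 N, ∑ c ∈ Icc 1 N, if b + c = n then F' b * G' c else 0) *
          ee (n * ((t : ℝ) / (M : ℕ)))‖ = ‖cv F G y₁ y₂ n‖ := by
      intro n _
      rw [norm_mul, Pool.Agent.H807R2.Dav.norm_ee, mul_one, hcv]
    rw [sum_congr rfl h1, hδ]
    apply Real.le_sqrt_of_sq_le
    refine (sq_sum_le_card_mul_sum_sq).trans ?_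
    exact mul_le_mul hcard hms (sum_nonneg fun _ _ => sq_nonneg _) (by positivity)
  have hδ0 : 0 ≤ δ := by rw [hδ]; exact Real.sqrt_nonneg _
  -- the first moment
  have hnormF : ∑ n ∈ Icc 1 N', ‖F' n‖ ^ 2 ≤ K := by
    refine le_trans ?_ hF
    rw [← sum_subset (Icc_subset_Icc le_rfl hNN' : Icc 1 N ⊆ Icc 1 N')]
    · refine sum_le_sum fun n _ => ?_
      rw [hF']
      exact pow_le_pow_left₀ (norm_nonneg _) (norm_tr_le _ _ _) 2
    · intro n hn hn'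
      rw [mem_Icc] at hn hn'
      rw [hF']
      unfold tr
      rw [if_neg (by omega), norm_zero]
      norm_num
  have hnormG : ∑ n ∈ Icc 1 N', ‖G' n‖ ^ 2 ≤ K := by
    refine le_trans ?_ hG
    rw [← sum_subset (Icc_subset_Icc le_rfl hNN' : Icc 1 N ⊆ Icc 1 N')]
    · refine sum_le_sum fun n _ => ?_
      rw [hG']
      exact pow_le_pow_left₀ (norm_nonneg _) (norm_tr_le _ _ _) 2
    · intro n hn hn'
      rw [mem_Icc] at hn hn'
      rw [hG']
      unfold tr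
      rw [if_neg (by omega), norm_zero]
      norm_num
  have hP1 : ∀ (y : ℕ) (X : ℕ → ℂ), y ≤ N → ∑ n ∈ Icc 1 N', ‖tr y X n‖ ^ 2 ≤ K →
      ∑ t ∈ range M, P q N (tr y X) ((t : ℝ) / (M : ℕ)) ≤ M * K := by
    intro y X hy hX
    have h1 := (Pool.Agent.Y872.GJ.pars q N' (tr y X) (tr y X) (hN.trans hNN')).2
    rw [← hM] at h1
    have h2 : ∀ t ∈ range M, P q N (tr y X) ((t : ℝ) / (M : ℕ)) =
        ∑ l : ZMod q, ‖cl q N' (tr y X) ((t : ℝ) / (M : ℕ)) l‖ ^ 2 := by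
      intro t _
      unfold Pool.Agent.Y614.GJ.Core.P
      refine sum_congr rfl fun l _ => ?_
      rw [cl_tr hy, cl_tr (hy.trans hNN')]
    rw [sum_congr rfl h2, h1]
    exact mul_le_mul_of_nonneg_left hX hM0.le
  have hL1 : ∑ t ∈ range M, ‖Hf t‖ ≤ M * K := by
    have h1 : ∀ t ∈ range M, ‖Hf t‖ ≤ (P q N F' ((t : ℝ) / (M : ℕ)) + P q N G' ((t : ℝ) / (M : ℕ))) / 2 := by
      intro t _
      have h2 := S_le q N F' G' ((t : ℝ) / (M : ℕ)) a
      have h3 := P_nonneg q N F' ((t : ℝ) / (M : ℕ))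
      have h4 := P_nonneg q N G' ((t : ℝ) / (M : ℕ))
      apply abs_le_of_sq_le_sq' _ (by positivity) |>.2
      rw [hHf]
      refine h2.trans ?_
      nlinarith [sq_nonneg (P q N F' ((t : ℝ) / (M : ℕ)) - P q N G' ((t : ℝ) / (M : ℕ)))]
    refine (sum_le_sum h1).trans ?_
    rw [← sum_div, sum_add_distrib]
    have h2 := hP1 y₁ F hy₁ (by rw [← hF']; exact hnormF)
    have h3 := hP1 y₂ G hy₂ (by rw [← hG']; exact hnormG)
    rw [← hF'] at h2
    rw [← hG'] at h3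
    linarith
  -- the signs
  have hsgn : ∀ i, ∃ e : ℂ, ‖e‖ ≤ 1 ∧ e * cv F G y₁ y₂ (s i) = ((‖cv F G y₁ y₂ (s i)‖ : ℝ) : ℂ) := by
    intro i
    by_cases h0 : cv F G y₁ y₂ (s i) = 0
    · exact ⟨0, by simp, by rw [h0]; simp⟩
    · refine ⟨(starRingEnd ℂ) (cv F G y₁ y₂ (s i)) / ‖cv F G y₁ y₂ (s i)‖, ?_, ?_⟩
      · rw [norm_div, RCLike.norm_conj, Complex.norm_real, norm_norm]
        exact div_self_le_one _
      · have h1 : (‖cv F G y₁ y₂ (s i)‖ : ℂ) ≠ 0 := by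
          rw [Complex.ofReal_ne_zero]
          exact norm_ne_zero_iff.2 h0
        rw [div_mul_eq_mul_div, Complex.conj_mul', div_eq_iff h1]
        ring
  choose e he1 he2 using hsgn
  obtain ⟨c, hc⟩ : ∃ c : ι → ℂ, c = fun i => if i ∈ S then e i else 0 := ⟨_, rfl⟩
  have hc1 : ∀ i, ‖c i‖ ≤ 1 := by
    intro i
    rw [hc]
    simp only
    split_ifs
    · exact he1 i
    · simp
  obtain ⟨X, hX⟩ : ∃ X, X = ∑ i ∈ S, ‖cv F G y₁ y₂ (s i)‖ := ⟨_, rfl⟩
  have hX0 : 0 ≤ X := by rw [hX]; exact sum_nonneg fun _ _ => norm_nonneg _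
  obtain ⟨Tf, hTf⟩ : ∃ Tf : ℕ → ℂ, Tf = fun t : ℕ => ∑ i, c i * ee ((t : ℝ) * (((-(s i : ℤ) : ℤ) : ℝ) / M)) := ⟨_, rfl⟩
  have hid : ((M * X : ℝ) : ℂ) = ∑ t ∈ range M, Hf t * Tf t := by
    have h1 : ((M * X : ℝ) : ℂ) = ∑ i, c i * ((M : ℂ) * cv F G y₁ y₂ (s i)) := by
      rw [hX]
      push_cast
      rw [mul_sum, ← sum_filter_add_sum_filter_not univ (fun i => i ∈ S)]
      have h2 : ∑ i ∈ univ.filter (fun i => ¬ i ∈ S), c i * ((M : ℂ) * cv F G y₁ y₂ (s i)) = 0 := by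
        refine sum_eq_zero fun i hi => ?_
        rw [mem_filter] at hi
        rw [hc]
        simp only
        rw [if_neg hi.2, zero_mul]
      rw [h2, add_zero, filter_univ_mem]
      refine sum_congr rfl fun i hi => ?_
      rw [hc]
      simp only
      rw [if_pos hi, ← he2 i]
      ring
    rw [h1]
    have h3 : ∀ t ∈ range M, Hf t * Tf t = ∑ i, c i * (Hf t * ee ((t : ℝ) * (((-(s i : ℤ) : ℤ) : ℝ) / M))) := by
      intro t _
      rw [hTf]
      simp only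
      rw [mul_sum]
      exact sum_congr rfl fun i _ => by ring
    rw [sum_congr rfl h3, sum_comm]
    refine sum_congr rfl fun i _ => ?_
    rw [← mul_sum]
    congr 1
    obtain ⟨k1, k2, k3⟩ := hs i
    have h4 := recover (N := N) (M := M) (by omega) F' G' a (s i) k1 (by omega) k3
    rw [hcv] at h4
    rw [h4, hHf]
  have hMX : M * X ≤ ∑ t ∈ range M, ‖Hf t‖ * ‖Tf t‖ := by
    have h1 : M * X = ‖((M * X : ℝ) : ℂ)‖ := by
      rw [Complex.norm_real, Real.norm_of_nonneg (by positivity)]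
    rw [h1, hid]
    refine (norm_sum_le _ _).trans (le_of_eq ?_)
    exact sum_congr rfl fun t _ => norm_mul _ _
  obtain ⟨m, hm⟩ : ∃ m, 2 * h = m + 1 := ⟨2 * h - 1, by omega⟩
  have hm' : 2 * h - 1 = m := by omega
  have hmom := moment_le h N M hM1 (by rw [hM, ← hN']; omega) s (fun i => (hs i).2.1) c hc1
  have hE0 : (0 : ℝ) ≤ energy h s := Nat.cast_nonneg _
  have h1 : (M * X) ^ (2 * h) ≤ (M : ℝ) ^ (2 * h) * (K ^ m * (δ * energy h s)) := by
    calc (M * X) ^ (2 * h) ≤ (∑ t ∈ range M, ‖Hf t‖ * ‖Tf t‖) ^ (2 * h) :=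
          pow_le_pow_left₀ (by positivity) hMX _
      _ ≤ (∑ t ∈ range M, ‖Hf t‖) ^ m * ∑ t ∈ range M, ‖Hf t‖ * ‖Tf t‖ ^ (2 * h) := by
          rw [hm]
          exact wpow _ _ (fun _ => norm_nonneg _) (fun _ => norm_nonneg _) m
      _ ≤ (M * K) ^ m * ∑ t ∈ range M, δ * ‖Tf t‖ ^ (2 * h) := by
          apply mul_le_mul
          · exact pow_le_pow_left₀ (sum_nonneg fun _ _ => norm_nonneg _) hL1 _
          · refine sum_le_sum fun t _ => ?_
            exact mul_le_mul_of_nonneg_right (hsup t) (by positivity)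
          · exact sum_nonneg fun _ _ => by positivity
          · positivity
      _ = (M * K) ^ m * (δ * ∑ t ∈ range M, ‖Tf t‖ ^ (2 * h)) := by rw [← mul_sum]
      _ ≤ (M * K) ^ m * (δ * (M * energy h s)) := by
          rw [hTf]
          gcongr
      _ = (M : ℝ) ^ (2 * h) * (K ^ m * (δ * energy h s)) := by
          rw [hm]
          ring
  rw [mul_pow] at h1
  rw [hm', ← hX, ← hδ]
  exact le_of_mul_le_mul_left h1 (by positivity)

end Pool.Agent.KS6_25
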