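import Pool.Agent.KS6_25.Ener

set_option autoImplicit false

/-!
# Families in a residue class: the number of members at which an error term is large
-/

namespace Pool.Agent.KS6_25

open Finset
open Pool.Agent.Y883.GJ
open Pool.Agent.R460.GS (cv)
open Pool.Agent.Y883.T4 (class_le)

/-- the members of a family at which one of few error terms is large -/
theorem few_of_detect (h C V₁ V₂ A A₁ : ℕ) (hh : 1 ≤ h)
    (hA₁ : A₁ = 2 * (8 * (2 * h - 1) + C + 1 + 2 * h * (V₁ + V₂ + A))) {N q : ℕ} [NeZero q] (hN : 1 ≤ N)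
    (hqN : q ≤ N) {L : ℝ} (hL : 2 ≤ L) (a : ZMod q) {ι : Type} [Fintype ι] (s : ι → ℕ)
    (hs : ∀ i, 1 ≤ s i ∧ s i ≤ N ∧ (s i : ZMod q) = a) {M : ℝ} (hM : 0 ≤ M)
    (hE : (energy h s : ℝ) * N ≤ L ^ C * q * M ^ (2 * h)) (F G : ℕ → ℂ)
    (hF : ∑ n ∈ Icc 1 N, ‖F n‖ ^ 2 ≤ N * L ^ 8) (hG : ∑ n ∈ Icc 1 N, ‖G n‖ ^ 2 ≤ N * L ^ 8)
    (J : Finset ℕ) (hJ : (J.card : ℝ) ≤ L ^ V₁) (y : ℕ → ℕ) (hy : ∀ j ∈ J, y j ≤ N)
    (hms : ∀ j ∈ J, ∑ n ∈ (Icc 1 (2 * N)).filter (fun n : ℕ => (n : ZMod q) = a),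
      ‖cv F G (y j) N n‖ ^ 2 ≤ (N : ℝ) ^ 3 / (q * L ^ A₁))
    (S : Finset ι) (hS : ∀ i ∈ S, ∃ j ∈ J, (N : ℝ) / L ^ V₂ ≤ ‖cv F G (y j) N (s i)‖) :
    (S.card : ℝ) ≤ M / L ^ A := by
  have hL0 : 0 < L := by linarith
  have hL1 : 1 ≤ L := by linarith
  have hN0 : (0 : ℝ) < N := by exact_mod_cast hN
  have hq0 : (0 : ℝ) < q := by exact_mod_cast NeZero.pos q
  obtain ⟨B, hB⟩ : ∃ B, B = V₁ + V₂ + A := ⟨_, rfl⟩
  obtain ⟨A₂, hA₂⟩ : ∃ A₂, A₂ = 8 * (2 * h - 1) + C + 1 + 2 * h * B := ⟨_, rfl⟩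
  have hA₁' : A₁ = A₂ + A₂ := by rw [hA₁, hA₂, hB]; ring
  have hsqrt : Real.sqrt (3 * N / q * ((N : ℝ) ^ 3 / (q * L ^ A₁))) ≤ 2 * (N ^ 2 / (q * L ^ A₂)) := by
    rw [Real.sqrt_le_left (by positivity)]
    have e1 : (3 * N / q * ((N : ℝ) ^ 3 / (q * L ^ A₁))) = 3 * (N ^ 2 / (q * L ^ A₂)) ^ 2 := by
      rw [hA₁', pow_add]
      field_simp
    rw [e1]
    nlinarith [sq_nonneg ((N : ℝ) ^ 2 / (q * L ^ A₂))]
  have hX : ∀ j ∈ J, ∑ i ∈ S, ‖cv F G (y j) N (s i)‖ ≤ N * M / L ^ B := by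
    intro j hj
    have h1 := transfer hN hh hqN F G (hy j hj) le_rfl a hF hG (hms j hj) s hs S
    have h0 : 0 ≤ ∑ i ∈ S, ‖cv F G (y j) N (s i)‖ := sum_nonneg fun _ _ => norm_nonneg _
    obtain ⟨m, hm⟩ : ∃ m, 2 * h = m + 1 := ⟨2 * h - 1, by omega⟩
    have hm' : 2 * h - 1 = m := by omega
    have hE0 : (0 : ℝ) ≤ energy h s := Nat.cast_nonneg _
    have hE' : (energy h s : ℝ) ≤ L ^ C * q * M ^ (2 * h) / N := by
      rw [le_div_iff₀ hN0]
      exact hE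
    have h2 : (∑ i ∈ S, ‖cv F G (y j) N (s i)‖) ^ (2 * h) ≤ (N * M / L ^ B) ^ (2 * h) := by
      refine h1.trans ?_
      calc (N * L ^ 8) ^ (2 * h - 1) * (Real.sqrt (3 * N / q * ((N : ℝ) ^ 3 / (q * L ^ A₁))) * energy h s)
          ≤ (N * L ^ 8) ^ (2 * h - 1) * (2 * (N ^ 2 / (q * L ^ A₂)) * (L ^ C * q * M ^ (2 * h) / N)) := by
            gcongr
        _ = (N * M / L ^ B) ^ (2 * h) * (2 / L) := by
            rw [hm', hA₂, hm', div_pow, mul_pow, mul_pow, ← pow_mul, ← pow_mul, mul_comm B (2 * h), pow_add,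
              pow_add, pow_add, hm]
            field_simp
            ring
        _ ≤ (N * M / L ^ B) ^ (2 * h) * 1 := by
            have : 2 / L ≤ 1 := by rw [div_le_one hL0]; exact hL
            gcongr
        _ = _ := mul_one _
    exact le_of_pow_le_pow_left₀ (by omega) (by positivity) h2
  have h1 : (S.card : ℝ) * (N / L ^ V₂) ≤ L ^ V₁ * (N * M / L ^ B) := by
    calc (S.card : ℝ) * (N / L ^ V₂) = ∑ _i ∈ S, (N : ℝ) / L ^ V₂ := by rw [sum_const, nsmul_eq_mul]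
      _ ≤ ∑ i ∈ S, ∑ j ∈ J, ‖cv F G (y j) N (s i)‖ := by
          refine sum_le_sum fun i hi => ?_
          obtain ⟨j, hj, hj'⟩ := hS i hi
          exact hj'.trans (single_le_sum (f := fun j => ‖cv F G (y j) N (s i)‖) (fun _ _ => norm_nonneg _) hj)
      _ = ∑ j ∈ J, ∑ i ∈ S, ‖cv F G (y j) N (s i)‖ := sum_comm
      _ ≤ ∑ _j ∈ J, N * M / L ^ B := sum_le_sum hX
      _ = (J.card : ℝ) * (N * M / L ^ B) := by rw [sum_const, nsmul_eq_mul]
      _ ≤ L ^ V₁ * (N * M / L ^ B) := by gcongr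
  have h2 : L ^ V₁ * (N * M / L ^ B) = M / L ^ A * (N / L ^ V₂) := by
    rw [hB, pow_add, pow_add]
    field_simp
  rw [h2] at h1
  exact le_of_mul_le_mul_right h1 (by positivity)

/-- a family in a short piece of a residue class has a large energy -/
lemma energy_lower {q h : ℕ} (hq : 1 ≤ q) (a : ℕ) {ι : Type} [Fintype ι] (s : ι → ℕ) (X : ℝ) (hX : 0 ≤ X)
    (S : Finset ι) (hs : ∀ i ∈ S, s i % q = a % q ∧ (s i : ℝ) ≤ X) :
    ((S.card : ℝ)) ^ (2 * h) ≤ (h * X / q + 1) * (energy h s : ℝ) := by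
  classical
  obtain ⟨Pi, hPi⟩ : ∃ Pi : Finset (Fin h → ι), Pi = Fintype.piFinset (fun _ : Fin h => S) := ⟨_, rfl⟩
  have hPc : Pi.card = S.card ^ h := by
    rw [hPi, Fintype.card_piFinset, prod_const, card_univ, Fintype.card_fin]
  obtain ⟨f, hf⟩ : ∃ f : (Fin h → ι) → ℕ, f = fun v => ∑ j, s (v j) := ⟨_, rfl⟩
  obtain ⟨Tv, hTv⟩ : ∃ Tv, Tv = Pi.image f := ⟨_, rfl⟩
  have hmem : ∀ v ∈ Pi, ∀ j, v j ∈ S := by
    intro v hv j
    rw [hPi, Fintype.mem_piFinset] at hv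
    exact hv j
  have hTc : (Tv.card : ℝ) ≤ h * X / q + 1 := by
    apply class_le 0 q (h * a) hq Tv (h * X) (by positivity)
    intro n hn
    rw [hTv, mem_image] at hn
    obtain ⟨v, hv, rfl⟩ := hn
    rw [hf]
    constructor
    · have h1 : (∑ j, s (v j)) ≡ ∑ _j : Fin h, a [MOD q] := by
        have h2 : ∀ J : Finset (Fin h), (∑ j ∈ J, s (v j)) ≡ ∑ _j ∈ J, a [MOD q] := by
          intro J
          induction J using Finset.induction_on with
          | empty => exact Nat.ModEq.refl _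
          | insert b J hb ih =>
            rw [sum_insert hb, sum_insert hb]
            exact Nat.ModEq.add (hs _ (hmem v hv b)).1 ih
        exact h2 univ
      rw [sum_const, card_univ, Fintype.card_fin, smul_eq_mul] at h1
      exact h1
    · push_cast
      calc ∑ j, (s (v j) : ℝ) ≤ ∑ _j : Fin h, X := sum_le_sum fun j _ => (hs _ (hmem v hv j)).2
        _ = h * X := by rw [sum_const, card_univ, Fintype.card_fin, nsmul_eq_mul]
  have h1 : (Pi.card : ℝ) = ∑ t ∈ Tv, ((Pi.filter (fun v => f v = t)).card : ℝ) := by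
    have := card_eq_sum_card_image f Pi
    rw [hTv]
    exact_mod_cast this
  have h2 : ∑ t ∈ Tv, ((Pi.filter (fun v => f v = t)).card : ℝ) ^ 2 ≤ (energy h s : ℝ) := by
    have h3 : ∑ t ∈ Tv, (Pi.filter (fun v => f v = t)).card ^ 2 ≤ energy h s := by
      have h4 : ∀ t ∈ Tv, (Pi.filter (fun v => f v = t)).card ^ 2 =
          (((Pi ×ˢ Pi).filter (fun w => f w.1 = f w.2)).filter (fun w => f w.1 = t)).card := by
        intro t _
        rw [sq, ← card_product]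
        congr 1
        ext ⟨v, w⟩
        simp only [mem_product, mem_filter]
        constructor
        · rintro ⟨⟨a1, a2⟩, a3, a4⟩
          exact ⟨⟨⟨a1, a3⟩, by rw [a2, a4]⟩, a2⟩
        · rintro ⟨⟨⟨a1, a2⟩, a3⟩, a4⟩
          exact ⟨⟨a1, a4⟩, a2, by rw [← a3, a4]⟩
      rw [sum_congr rfl h4]
      have h5 : ∑ t ∈ Tv, (((Pi ×ˢ Pi).filter (fun w => f w.1 = f w.2)).filter (fun w => f w.1 = t)).card =
          ((Pi ×ˢ Pi).filter (fun w => f w.1 = f w.2)).card := by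
        symm
        apply card_eq_sum_card_fiberwise
        intro w hw
        rw [mem_coe, mem_filter, mem_product] at hw
        rw [mem_coe, hTv, mem_image]
        exact ⟨w.1, hw.1.1, rfl⟩
      rw [h5]
      have h6 : energy h s = ((univ : Finset ((Fin h → ι) × (Fin h → ι))).filter
          (fun w => ∑ j, s (w.1 j) = ∑ j, s (w.2 j))).card := by
        unfold energy
        rw [Nat.card_eq_fintype_card, Fintype.card_subtype]
      rw [h6]
      apply card_le_card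
      intro w hw
      rw [mem_filter] at hw ⊢
      refine ⟨mem_univ _, ?_⟩
      have := hw.2
      rw [hf] at this
      exact this
    exact_mod_cast h3
  have h3 : ((Pi.card : ℝ)) ^ 2 ≤ (Tv.card : ℝ) * (energy h s : ℝ) := by
    rw [h1]
    refine (sq_sum_le_card_mul_sum_sq).trans ?_
    gcongr
  calc (S.card : ℝ) ^ (2 * h) = (Pi.card : ℝ) ^ 2 := by
        rw [hPc]
        push_cast
        rw [← pow_mul, mul_comm]
    _ ≤ (Tv.card : ℝ) * (energy h s : ℝ) := h3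
    _ ≤ (h * X / q + 1) * (energy h s : ℝ) := by gcongr

/-- few members are small -/
lemma few_small_members (h C A B : ℕ) (hh : 1 ≤ h) (hB : B = C + 2 * h * A + 1) {N q : ℕ} (hq : 1 ≤ q)
    (hN : 1 ≤ N) {L : ℝ} (hL : (h : ℝ) + 1 ≤ L) (hqL : (q : ℝ) * L ^ B ≤ N) (a : ℕ) {ι : Type} [Fintype ι]
    (s : ι → ℕ) {M : ℝ} (hM : 0 ≤ M) (hE : (energy h s : ℝ) * N ≤ L ^ C * q * M ^ (2 * h))
    (S : Finset ι) (hs : ∀ i ∈ S, s i % q = a % q ∧ (s i : ℝ) ≤ N / L ^ B) :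
    (S.card : ℝ) ≤ M / L ^ A := by
  have hh1 : (1 : ℝ) ≤ h := by exact_mod_cast hh
  have hL0 : 0 < L := by linarith
  have hL1 : 1 ≤ L := by linarith
  have hN0 : (0 : ℝ) < N := by exact_mod_cast hN
  have hq0 : (0 : ℝ) < q := by exact_mod_cast hq
  have h1 := energy_lower (h := h) hq a s (N / L ^ B) (by positivity) S hs
  have hE' : (energy h s : ℝ) ≤ L ^ C * q * M ^ (2 * h) / N := by
    rw [le_div_iff₀ hN0]
    exact hE
  have h2 : (h * (N / L ^ B) / q + 1 : ℝ) ≤ (h + 1) * (N / (q * L ^ B)) := by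
    have e1 : (1 : ℝ) ≤ N / (q * L ^ B) := by
      rw [_root_.one_le_div (by positivity)]
      exact hqL
    calc (h * (N / L ^ B) / q + 1 : ℝ) = h * (N / (q * L ^ B)) + 1 := by
          field_simp
      _ ≤ h * (N / (q * L ^ B)) + N / (q * L ^ B) := by linarith
      _ = _ := by ring
  have h3 : (S.card : ℝ) ^ (2 * h) ≤ (M / L ^ A) ^ (2 * h) := by
    calc (S.card : ℝ) ^ (2 * h) ≤ (h * (N / L ^ B) / q + 1) * (energy h s : ℝ) := h1
      _ ≤ ((h + 1) * (N / (q * L ^ B))) * (L ^ C * q * M ^ (2 * h) / N) := by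
          gcongr
      _ = (M / L ^ A) ^ (2 * h) * ((h + 1) / L) := by
          rw [hB, div_pow, ← pow_mul, mul_comm A (2 * h), pow_add, pow_add]
          field_simp
      _ ≤ (M / L ^ A) ^ (2 * h) * 1 := by
          have : ((h : ℝ) + 1) / L ≤ 1 := by rw [div_le_one hL0]; exact hL
          gcongr
      _ = _ := mul_one _
  exact le_of_pow_le_pow_left₀ (by omega) (by positivity) h3

end Pool.Agent.KS6_25
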