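import Pool.Agent.KS6_25.Thin

set_option autoImplicit false

/-!
# Neighbourhoods of the members of a family of integers
-/

namespace Pool.Agent.KS6_25

open Finset
open Pool.Agent.Y614.GJ.Core (ev_log)

/-- The additive energy of order `h` of a finite family of integers: the number of the solutions of
`w (a 1) + ... + w (a h) = w (b 1) + ... + w (b h)`. -/
noncomputable def energyZ (h : ℕ) {ι : Type} [Fintype ι] (w : ι → ℤ) : ℕ :=
  Nat.card {v : (Fin h → ι) × (Fin h → ι) // ∑ j, w (v.1 j) = ∑ j, w (v.2 j)}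

/-- The number of the members `w i` of the family for which some integer `m` with `|m - w i| ≤ (log N) ^ B` is
such that `n = a + q m` is even, `0 < n ≤ N`, and `P n` is false. -/
noncomputable def exceptions (P : ℕ → Prop) (B N q : ℕ) (a : ℤ) {ι : Type} (w : ι → ℤ) : ℕ :=
  Nat.card {i : ι // ∃ m : ℤ, |(m : ℝ) - w i| ≤ Real.log N ^ B ∧ 0 < a + q * m ∧ a + q * m ≤ N ∧
    Even (a + q * m) ∧ ¬ P (a + q * m).toNat}

/-- the energy of a part of a family, in the residue class -/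
lemma energy_sub (h q : ℕ) (hq : 1 ≤ q) (a : ℤ) {ι : Type} [Fintype ι] (w : ι → ℤ) (δ : ℤ) (S : Finset ι)
    (hS : ∀ i ∈ S, 0 < a + q * (w i + δ)) :
    energy h (fun i : {i // i ∈ S} => (a + q * (w i.1 + δ)).toNat) ≤ energyZ h w := by
  classical
  have hq0 : (q : ℤ) ≠ 0 := by exact_mod_cast (by omega : q ≠ 0)
  unfold energy energyZ
  have key : ∀ v : Fin h → {i // i ∈ S}, ((∑ j, (a + q * (w (v j).1 + δ)).toNat : ℕ) : ℤ) =
      h * a + q * (∑ j, w (v j).1) + q * (h * δ) := by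
    intro v
    push_cast
    have h1 : ∀ j ∈ (univ : Finset (Fin h)), (((a + q * (w (v j).1 + δ)).toNat : ℕ) : ℤ) =
        a + q * w (v j).1 + q * δ := by
      intro j _
      rw [Int.toNat_of_nonneg (hS _ (v j).2).le]
      ring
    push_cast at h1
    rw [sum_congr rfl h1, sum_add_distrib, sum_add_distrib, ← mul_sum, sum_const, sum_const, card_univ,
      Fintype.card_fin, nsmul_eq_mul, nsmul_eq_mul]
    ring
  apply Nat.card_le_card_of_injective (fun v : {v : (Fin h → {i // i ∈ S}) × (Fin h → {i // i ∈ S}) //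
      ∑ j, (a + q * (w (v.1 j).1 + δ)).toNat = ∑ j, (a + q * (w (v.2 j).1 + δ)).toNat} =>
    (⟨(fun j => (v.1.1 j).1, fun j => (v.1.2 j).1), by
      have h1 := key v.1.1
      have h2 := key v.1.2
      rw [v.2] at h1
      have h3 : (q : ℤ) * (∑ j, w (v.1.1 j).1) = q * (∑ j, w (v.1.2 j).1) := by linarith
      exact mul_left_cancel₀ hq0 h3⟩ :
      {v : (Fin h → ι) × (Fin h → ι) // ∑ j, w (v.1 j) = ∑ j, w (v.2 j)}))
  rintro ⟨⟨v1, v2⟩, hv⟩ ⟨⟨u1, u2⟩, hu⟩ heq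
  simp only [Subtype.mk.injEq, Prod.mk.injEq] at heq ⊢
  obtain ⟨e1, e2⟩ := heq
  constructor
  · funext j
    exact Subtype.ext (congrFun e1 j)
  · funext j
    exact Subtype.ext (congrFun e2 j)

/-- from families in a residue class to neighbourhoods -/
theorem nbhd (θ : ℝ) (P : ℕ → Prop) (h : ℕ)
    (hthin : ∀ C A T : ℕ, ∃ N₀ : ℕ, ∀ N : ℕ, N₀ ≤ N → ∀ q : ℕ, 1 ≤ q → (q : ℝ) ≤ (N : ℝ) ^ θ → ∀ a : ℕ,
      (Nat.gcd a q : ℝ) ≤ Real.log N ^ T → ∀ (ι : Type) [Fintype ι] (s : ι → ℕ) (M : ℝ), 0 ≤ M →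
      (∀ i, 1 ≤ s i ∧ s i ≤ N ∧ 2 ∣ s i ∧ s i % q = a % q ∧ ¬ P (s i)) →
      (energy h s : ℝ) * N ≤ Real.log N ^ C * q * M ^ (2 * h) →
        (Fintype.card ι : ℝ) ≤ M / Real.log N ^ A) (A B C T : ℕ) :
    ∃ N₀ : ℕ, ∀ N : ℕ, N₀ ≤ N → ∀ q : ℕ, 1 ≤ q → (q : ℝ) ≤ (N : ℝ) ^ θ → ∀ a : ℤ,
      (Int.gcd a q : ℝ) ≤ Real.log N ^ T → ∀ (ι : Type) [Fintype ι] (w : ι → ℤ),
      (energyZ h w : ℝ) * (N / q) ≤ Real.log N ^ C * (Fintype.card ι : ℝ) ^ (2 * h) →
        (exceptions P B N q a w : ℝ) ≤ Fintype.card ι / Real.log N ^ A := by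
  classical
  obtain ⟨N₁, h1⟩ := hthin C (A + B + 1) T
  obtain ⟨N₂, h2⟩ := Pool.Agent.H373R2.T7.ev_L' 3
  refine ⟨N₁ + N₂ + 1, fun N hN q hq hqN a ha ι _ w hE => ?_⟩
  have c1 := h1 N (by omega) q hq hqN (a % (q : ℤ)).toNat (by
    rw [Pool.Agent.R460.GS.gcd_toNat q a hq]
    exact ha)
  have c2 := h2 N (by omega)
  have hq0 : (0 : ℝ) < q := by exact_mod_cast hq
  obtain ⟨L, hL⟩ : ∃ L, L = Real.log (N : ℝ) := ⟨_, rfl⟩
  have hexc : exceptions P B N q a w = (univ.filter (fun i : ι => ∃ m : ℤ, |(m : ℝ) - w i| ≤ Real.log N ^ B ∧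
      0 < a + q * m ∧ a + q * m ≤ N ∧ Even (a + q * m) ∧ ¬ P (a + q * m).toNat)).card := by
    unfold exceptions
    rw [Nat.card_eq_fintype_card, Fintype.card_subtype]
  rw [hexc]
  rw [← hL] at c1 c2 hE ⊢
  have hL0 : 0 < L := by linarith
  have hL1 : 1 ≤ L := by linarith
  obtain ⟨R, hR⟩ : ∃ R : ℕ, R = ⌊L ^ B⌋₊ := ⟨_, rfl⟩
  have hRL : (R : ℝ) ≤ L ^ B := by rw [hR]; exact Nat.floor_le (by positivity)
  obtain ⟨F, hF⟩ : ∃ F : ℤ → Finset ι, F = fun δ => univ.filter (fun i => 0 < a + q * (w i + δ) ∧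
    a + q * (w i + δ) ≤ N ∧ Even (a + q * (w i + δ)) ∧ ¬ P (a + q * (w i + δ)).toNat) := ⟨_, rfl⟩
  have hsub : univ.filter (fun i : ι => ∃ m : ℤ, |(m : ℝ) - w i| ≤ L ^ B ∧
      0 < a + q * m ∧ a + q * m ≤ N ∧ Even (a + q * m) ∧ ¬ P (a + q * m).toNat) ⊆
      (Icc (-(R : ℤ)) R).biUnion F := by
    intro i hi
    rw [mem_filter] at hi
    obtain ⟨_, m, hm, h3, h4, h5, h6⟩ := hi
    rw [mem_biUnion]
    refine ⟨m - w i, ?_, ?_⟩
    · rw [mem_Icc, ← abs_le]
      have h7 : (((m - w i).natAbs : ℕ) : ℝ) ≤ L ^ B := by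
        refine le_trans (le_of_eq ?_) hm
        rw [Nat.cast_natAbs]
        push_cast
        rfl
      have h8 : (m - w i).natAbs ≤ R := by rw [hR]; exact Nat.le_floor h7
      rw [← Int.natCast_natAbs]
      exact_mod_cast h8
    · rw [hF]
      simp only
      rw [mem_filter]
      have e : w i + (m - w i) = m := by ring
      rw [e]
      exact ⟨mem_univ _, h3, h4, h5, h6⟩
  have hone : ∀ δ : ℤ, ((F δ).card : ℝ) ≤ Fintype.card ι / L ^ (A + B + 1) := by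
    intro δ
    have hmem : ∀ i ∈ F δ, 0 < a + q * (w i + δ) ∧ a + q * (w i + δ) ≤ N ∧ Even (a + q * (w i + δ)) ∧
        ¬ P (a + q * (w i + δ)).toNat := by
      intro i hi
      rw [hF] at hi
      simp only at hi
      rw [mem_filter] at hi
      exact hi.2
    have h3 := c1 {i // i ∈ F δ} (fun i => (a + q * (w i.1 + δ)).toNat) (Fintype.card ι) (Nat.cast_nonneg _) (by
      rintro ⟨i, hi⟩
      obtain ⟨k1, k2, k3, k4⟩ := hmem i hi
      simp only
      have e0 : ((((a + q * (w i + δ)).toNat : ℕ)) : ℤ) = a + q * (w i + δ) := Int.toNat_of_nonneg k1.le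
      refine ⟨by omega, by omega, ?_, ?_, k4⟩
      · have h4 : (2 : ℤ) ∣ (((a + q * (w i + δ)).toNat : ℕ) : ℤ) := by rw [e0]; exact even_iff_two_dvd.1 k3
        exact_mod_cast h4
      · apply Pool.Agent.R460.GS.mod_iff' _ q a hq
        rw [e0]
        exact (Int.emod_emod_of_dvd _ (dvd_refl _)).symm.trans (by
          rw [Int.add_mul_emod_self_left]
          exact Int.emod_emod_of_dvd _ (dvd_refl _))) (by
      have h5 : (energy h (fun i : {i // i ∈ F δ} => (a + q * (w i.1 + δ)).toNat) : ℝ) ≤ energyZ h w := by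
        exact_mod_cast energy_sub h q hq a w δ (F δ) (fun i hi => (hmem i hi).1)
      calc (energy h (fun i : {i // i ∈ F δ} => (a + q * (w i.1 + δ)).toNat) : ℝ) * N
          ≤ energyZ h w * N := by gcongr
        _ = q * (energyZ h w * (N / q)) := by field_simp
        _ ≤ q * (L ^ C * (Fintype.card ι : ℝ) ^ (2 * h)) := mul_le_mul_of_nonneg_left hE hq0.le
        _ = L ^ C * q * (Fintype.card ι : ℝ) ^ (2 * h) := by ring)
    rw [Fintype.card_coe] at h3
    exact h3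
  calc ((univ.filter (fun i : ι => ∃ m : ℤ, |(m : ℝ) - w i| ≤ L ^ B ∧
      0 < a + q * m ∧ a + q * m ≤ N ∧ Even (a + q * m) ∧ ¬ P (a + q * m).toNat)).card : ℝ)
      ≤ (((Icc (-(R : ℤ)) R).biUnion F).card : ℝ) := by exact_mod_cast card_le_card hsub
    _ ≤ ((∑ δ ∈ Icc (-(R : ℤ)) R, (F δ).card : ℕ) : ℝ) := by exact_mod_cast card_biUnion_le
    _ = ∑ δ ∈ Icc (-(R : ℤ)) R, ((F δ).card : ℝ) := by push_cast; rfl
    _ ≤ ∑ _δ ∈ Icc (-(R : ℤ)) R, (Fintype.card ι : ℝ) / L ^ (A + B + 1) := sum_le_sum fun δ _ => hone δ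
    _ = (2 * R + 1) * (Fintype.card ι / L ^ (A + B + 1)) := by
        rw [sum_const, Int.card_Icc, nsmul_eq_mul]
        congr 1
        have : ((R : ℤ) + 1 - -(R : ℤ)).toNat = 2 * R + 1 := by omega
        rw [this]
        push_cast
        rfl
    _ ≤ L ^ (B + 1) * (Fintype.card ι / L ^ (A + B + 1)) := by
        apply mul_le_mul_of_nonneg_right _ (by positivity)
        have h6 : 1 ≤ L ^ B := one_le_pow₀ hL1
        rw [pow_succ]
        nlinarith
    _ = Fintype.card ι / L ^ A := by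
        rw [show A + B + 1 = A + (B + 1) by ring, pow_add L A (B + 1)]
        field_simp

end Pool.Agent.KS6_25
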