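import Pool.Agent.KS6_25.Few
import Pool.Graph.R_pool_sql_team_seeded_47a924f7.T6.H3.FF.Conv

set_option autoImplicit false

/-!
# Families of exceptional numbers in a residue class of an arbitrary modulus
-/

namespace Pool.Agent.KS6_25

open Finset
open Pool.Agent.R460.GS (cv one_le_sing bd_sq bd_LA)
open Pool.Agent.Y883.T3 (lsh)
open Pool.Agent.H373R2.T7 (lamz)
open Pool.Agent.Y883.GJ
open Pool.Agent.Y614.GJ.Core (ev_log)
open Pool.Agent.T6.H3.FF (WinM Err4Stm fm windows_of_grid4 grid_lower4 SmallE4 winM_mono bd_fm ws)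
open Pool.Agent.W93.PG (WinP GoodG win_count pg_det)
open Pool.Agent.R460.GH (ErrHStm cv_near bd_FF bd_LS)

/-- the lower bound: a family of exceptional numbers in a residue class of a modulus `q ≤ N ^ (4/5 - ρ)` -/
theorem ff_thin (hErr : Err4Stm) (Q : ℕ → Prop) (W n₀ : ℕ) (hQ : ∀ n : ℕ, n₀ ≤ n → 2 ∣ n → WinM W n → Q n)
    (ρ : ℝ) (hρ : 0 < ρ) (h C A T : ℕ) (hh : 1 ≤ h) :
    ∃ N₀ : ℕ, ∀ N : ℕ, N₀ ≤ N → ∀ q : ℕ, 1 ≤ q → (q : ℝ) ≤ (N : ℝ) ^ (4 / 5 - ρ) → ∀ a : ℕ,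
      (Nat.gcd a q : ℝ) ≤ Real.log N ^ T → ∀ (ι : Type) [Fintype ι] (s : ι → ℕ) (M : ℝ), 0 ≤ M →
      (∀ i, 1 ≤ s i ∧ s i ≤ N ∧ 2 ∣ s i ∧ s i % q = a % q ∧ ¬ Q (s i)) →
      (energy h s : ℝ) * N ≤ Real.log N ^ C * q * M ^ (2 * h) →
        (Fintype.card ι : ℝ) ≤ M / Real.log N ^ A := by
  classical
  obtain ⟨B0, hB0⟩ : ∃ B0, B0 = C + 2 * h * (A + 1) + 1 := ⟨_, rfl⟩
  obtain ⟨Ab, hAb⟩ : ∃ Ab, Ab = W + B0 := ⟨_, rfl⟩
  obtain ⟨V, hV⟩ : ∃ V, V = 2 * Ab + 4 := ⟨_, rfl⟩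
  obtain ⟨A₁, hA₁⟩ : ∃ A₁, A₁ = 2 * (8 * (2 * h - 1) + C + 1 + 2 * h * ((V + 1) + (V + 2) + (A + 1))) := ⟨_, rfl⟩
  obtain ⟨B, hB⟩ := hErr A₁ T (V + 6) ρ hρ
  obtain ⟨E1, hE1⟩ : ∃ E1, E1 = max B (V + 8) := ⟨_, rfl⟩
  obtain ⟨N₁, h1⟩ := hB (E1 + 1)
  obtain ⟨N₂, h2⟩ := grid_lower4 V E1 (by rw [hE1]; exact le_max_right _ _)
  obtain ⟨N₃, h3⟩ := windows_of_grid4 Ab
  obtain ⟨c, Nw, hWB⟩ := ws
  obtain ⟨N₄, h4⟩ := Filter.eventually_atTop.1 (ev_log (V + Ab + B0 + 4) (s := 1 / 5) (by norm_num)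
    (100 + h + 4 * |c| + 2 * n₀))
  refine ⟨N₁ + N₂ + N₃ + N₄ + Nw + 3, fun N hN q hq1 hqN a ha ι _ s M hM hs hE => ?_⟩
  have : NeZero q := ⟨by omega⟩
  have hN1 : 1 ≤ N := by omega
  have hN0 : (0 : ℝ) < N := by exact_mod_cast hN1
  have hN1r : (1 : ℝ) ≤ N := by exact_mod_cast hN1
  obtain ⟨hL100', hLp⟩ := h4 N (by omega)
  have c1 := h1 N (by omega)
  have c2 := h2 N (by omega)
  have c3 := h3 N (by omega)
  have hWs := hWB N (by omega)
  have hbLA := bd_LA (N := N)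
  have hbfm := fun z r (hP : Par (V + 6) N z r) => bd_fm (z := z) (r := r) hWs hP
  have hsq := fun (F : ℕ → ℂ) hF => bd_sq (N := N) (F := F) hF
  obtain ⟨L, hLd⟩ : ∃ L, L = Real.log (N : ℝ) := ⟨_, rfl⟩
  rw [← hLd] at c1 c2 c3 hL100' hLp ha hE hbLA hbfm hsq ⊢
  have hh0 : (0 : ℝ) ≤ h := Nat.cast_nonneg _
  have hca := abs_nonneg c
  have hcl := le_abs_self c
  have hn₀0 : (0 : ℝ) ≤ n₀ := Nat.cast_nonneg _
  have hL100 : 100 ≤ L := by linarith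
  have hLh : (h : ℝ) + 1 ≤ L := by linarith
  have hL0 : 0 < L := by linarith
  have hL1 : 1 ≤ L := by linarith
  have hq0 : (0 : ℝ) < q := by exact_mod_cast hq1
  -- the parameter `z`
  obtain ⟨z, hz⟩ : ∃ z, z = ⌈L ^ E1⌉₊ := ⟨_, rfl⟩
  have hzlo : L ^ E1 ≤ z := by rw [hz]; exact Nat.le_ceil _
  have hL1B : 1 ≤ L ^ E1 := one_le_pow₀ hL1
  have hzhi : (z : ℝ) ≤ L ^ (E1 + 1) := by
    have := Nat.ceil_lt_add_one (show 0 ≤ L ^ E1 by positivity)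
    rw [← hz] at this
    calc (z : ℝ) ≤ L ^ E1 + 1 := this.le
      _ ≤ L ^ E1 + L ^ E1 := by linarith
      _ = 2 * L ^ E1 := by ring
      _ ≤ L * L ^ E1 := mul_le_mul_of_nonneg_right (by linarith) (by positivity)
      _ = L ^ (E1 + 1) := by ring
  have hzB : L ^ B ≤ z := (pow_le_pow_right₀ hL1 (by rw [hE1]; exact le_max_left _ _)).trans hzlo
  obtain ⟨r, hPar, hsum, hms⟩ := c1 z hzB hzhi
  have c2' := c2 z r hzlo hzhi hsum
  -- the grid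
  obtain ⟨Tg, hTg⟩ : ∃ Tg, Tg = ⌈L ^ V⌉₊ := ⟨_, rfl⟩
  have hT1 : L ^ V ≤ Tg := by rw [hTg]; exact Nat.le_ceil _
  have hLV : 1 ≤ L ^ V := one_le_pow₀ hL1
  have hT2 : (Tg : ℝ) ≤ L ^ V + 1 := by
    rw [hTg]
    exact (Nat.ceil_lt_add_one (by positivity)).le
  have hTpos : 0 < Tg := by
    have : (0 : ℝ) < Tg := by linarith
    exact_mod_cast this
  obtain ⟨H, hH⟩ : ∃ H, H = N / Tg + 1 := ⟨_, rfl⟩
  have hH1 : 1 ≤ H := by rw [hH]; exact Nat.le_add_left 1 _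
  have hpow1 : (N : ℝ) ^ (1 / 5 : ℝ) ≤ N := by
    calc (N : ℝ) ^ (1 / 5 : ℝ) ≤ (N : ℝ) ^ (1 : ℝ) := Real.rpow_le_rpow_of_exponent_le hN1r (by norm_num)
      _ = N := Real.rpow_one _
  have hHr : (H : ℝ) ≤ 2 * (N / L ^ V) := by
    rw [hH]
    push_cast
    have e1 : ((N / Tg : ℕ) : ℝ) ≤ N / L ^ V := by
      calc ((N / Tg : ℕ) : ℝ) ≤ (N : ℝ) / Tg := Nat.cast_div_le
        _ ≤ N / L ^ V := div_le_div_of_nonneg_left hN0.le (by positivity) hT1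
    have e2 : 1 ≤ (N : ℝ) / L ^ V := by
      rw [le_div_iff₀ (by positivity), one_mul]
      exact (pow_le_pow_right₀ hL1 (by omega)).trans (hLp.trans hpow1)
    linarith
  have hjT : ∀ j : ℕ, j * H ≤ N → j < Tg + 1 := by
    intro j hj
    by_contra hcon
    have e1 : (Tg + 1) * H ≤ j * H := Nat.mul_le_mul_right _ (by omega)
    have e2 : N < Tg * H := by
      rw [hH]
      exact Nat.lt_mul_div_succ N hTpos
    have e3 : Tg * H ≤ (Tg + 1) * H := Nat.mul_le_mul_right _ (by omega)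
    omega
  have hgcd : ((Nat.gcd (ZMod.val (a : ZMod q)) q : ℕ) : ℝ) ≤ L ^ T := by
    rw [ZMod.val_natCast, ← Nat.gcd_rec, Nat.gcd_comm]
    exact ha
  -- the size of q
  have hqs : (q : ℝ) * L ^ B0 ≤ N := by
    have e1 : (q : ℝ) ≤ (N : ℝ) ^ (4 / 5 : ℝ) :=
      hqN.trans (Real.rpow_le_rpow_of_exponent_le hN1r (by linarith))
    have e2 : L ^ B0 ≤ (N : ℝ) ^ (1 / 5 : ℝ) := (pow_le_pow_right₀ hL1 (by omega)).trans hLp
    calc (q : ℝ) * L ^ B0 ≤ (N : ℝ) ^ (4 / 5 : ℝ) * (N : ℝ) ^ (1 / 5 : ℝ) := by gcongr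
      _ = N := by rw [← Real.rpow_add hN0]; norm_num
  have hqNn : q ≤ N := by
    have e1 : (q : ℝ) ≤ q * L ^ B0 := le_mul_of_one_le_right hq0.le (one_le_pow₀ hL1)
    exact_mod_cast e1.trans hqs
  -- the two parts
  obtain ⟨S1, hS1⟩ : ∃ S1 : Finset ι, S1 = univ.filter (fun i => (s i : ℝ) < N / L ^ (Ab + 1)) := ⟨_, rfl⟩
  obtain ⟨S2, hS2⟩ : ∃ S2 : Finset ι, S2 = univ.filter (fun i => ¬ (s i : ℝ) < N / L ^ (Ab + 1)) := ⟨_, rfl⟩
  have hcard : S1.card + S2.card = Fintype.card ι := by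
    rw [hS1, hS2, card_filter_add_card_filter_not, card_univ]
  have hS1c : (S1.card : ℝ) ≤ M / L ^ (A + 1) := by
    refine few_small_members h C (A + 1) B0 hh hB0 hq1 hN1 hLh hqs a s hM hE S1 ?_
    intro i hi
    rw [hS1, mem_filter] at hi
    refine ⟨(hs i).2.2.2.1, hi.2.le.trans ?_⟩
    exact div_le_div_of_nonneg_left hN0.le (by positivity) (pow_le_pow_right₀ hL1 (by omega))
  obtain ⟨J, hJ⟩ : ∃ J, J = (range (Tg + 1)).filter (fun j => j * H ≤ N) := ⟨_, rfl⟩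
  have hJc : (J.card : ℝ) ≤ L ^ (V + 1) := by
    have e1 : J.card ≤ Tg + 1 := by
      rw [hJ]
      exact (card_filter_le _ _).trans (card_range _).le
    have e2 : (J.card : ℝ) ≤ Tg + 1 := by exact_mod_cast e1
    rw [pow_succ]
    nlinarith
  have hS2c : (S2.card : ℝ) ≤ M / L ^ (A + 1) := by
    refine few_of_detect h C (V + 1) (V + 2) (A + 1) A₁ hh hA₁ hN1 hqNn (by linarith) (a : ZMod q) s ?_ hM hE LA
      (fm N z r) (hsq _ (hbLA hL1) (by linarith)) (hsq _ (hbfm z r hPar (by linarith)) (by linarith)) J hJc (fun j => j * H) ?_ ?_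
      S2 ?_
    · intro i
      obtain ⟨a1, a2, a3, a4, a5⟩ := hs i
      exact ⟨a1, a2, (ZMod.natCast_eq_natCast_iff' _ a q).2 a4⟩
    · intro j hj
      rw [hJ, mem_filter] at hj
      exact hj.2
    · intro j hj
      rw [hJ, mem_filter] at hj
      exact hms q hqN (a : ZMod q) hgcd (j * H) N hj.2 le_rfl
    · intro i hi
      rw [hS2, mem_filter, not_lt] at hi
      obtain ⟨a1, a2, a3, a4, a5⟩ := hs i
      by_contra hcon
      push Not at hcon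
      have hsm : ∀ j : ℕ, j * H < s i → SmallE4 N z r (s i) (j * H) (V + 2) := by
        intro j hj
        unfold SmallE4
        rw [← hLd]
        refine (hcon j ?_).le
        rw [hJ, mem_filter, mem_range]
        exact ⟨hjT j (by omega), by omega⟩
      have hS2' := (c2' (s i) a2 a3 (by omega) 0 0 le_rfl (by omega) (by
        have := hsm 0 (by omega)
        rwa [zero_mul] at this) (by
        have := hsm 0 (by omega)
        rwa [zero_mul] at this)).2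
      apply a5
      rw [hV] at hHr
      have e1 : (N : ℝ) ^ (4 / 5 : ℝ) ≤ s i := by
        refine le_trans ?_ hi.2
        rw [le_div_iff₀ (by positivity)]
        calc (N : ℝ) ^ (4 / 5 : ℝ) * L ^ (Ab + 1) ≤ (N : ℝ) ^ (4 / 5 : ℝ) * (N : ℝ) ^ (1 / 5 : ℝ) := by
              have : L ^ (Ab + 1) ≤ (N : ℝ) ^ (1 / 5 : ℝ) := (pow_le_pow_right₀ hL1 (by omega)).trans hLp
              gcongr
          _ = N := by rw [← Real.rpow_add hN0]; norm_num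
      have e2 : 4 / 5 * L ≤ Real.log (s i) := by
        rw [hLd, ← Real.log_rpow hN0]
        exact Real.log_le_log (by positivity) e1
      have e3 : (n₀ : ℝ) ≤ s i := by
        have := Real.log_le_self (Nat.cast_nonneg (s i) : (0 : ℝ) ≤ s i)
        linarith
      have e4 : n₀ ≤ s i := by exact_mod_cast e3
      refine hQ _ e4 a3 ?_
      have hwin : WinM Ab (s i) := by
        refine c3 H hH1 hHr (s i) a2 hi.2 hS2' ?_
        intro i' j hij hj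
        have hle : i' * H ≤ j * H := Nat.mul_le_mul_right _ hij
        have := (c2' (s i) a2 a3 (by omega) (i' * H) (j * H) hle hj (hsm i' (by omega)) (hsm j hj)).1
        rw [hV] at this
        exact this
      exact winM_mono (show W ≤ Ab by omega) (by linarith) hwin
  have h5 : (S1.card : ℝ) + S2.card = Fintype.card ι := by exact_mod_cast hcard
  have h6 : M / L ^ (A + 1) = M / L ^ A / L := by rw [pow_succ, div_div]
  have h7 : 0 ≤ M / L ^ A := by positivity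
  have h8 : M / L ^ A / L ≤ M / L ^ A / 100 := div_le_div_of_nonneg_left h7 (by norm_num) hL100
  rw [h6] at hS1c hS2c
  linarith

/-- the asymptotic formula: a family of exceptional numbers in a residue class of a modulus
`q ≤ N ^ (2/3 - ρ)` -/
theorem gh_thin (hErr : ErrHStm) (ε : ℝ) (hε : 0 < ε) (Q : ℕ → Prop) (W n₀ : ℕ)
    (hQ : ∀ n : ℕ, n₀ ≤ n → 2 ∣ n → WinP ε W n → Q n) (ρ : ℝ) (hρ : 0 < ρ) (h C A T : ℕ) (hh : 1 ≤ h) :
    ∃ N₀ : ℕ, ∀ N : ℕ, N₀ ≤ N → ∀ q : ℕ, 1 ≤ q → (q : ℝ) ≤ (N : ℝ) ^ (2 / 3 - ρ) → ∀ a : ℕ,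
      (Nat.gcd a q : ℝ) ≤ Real.log N ^ T → ∀ (ι : Type) [Fintype ι] (s : ι → ℕ) (M : ℝ), 0 ≤ M →
      (∀ i, 1 ≤ s i ∧ s i ≤ N ∧ 2 ∣ s i ∧ s i % q = a % q ∧ ¬ Q (s i)) →
      (energy h s : ℝ) * N ≤ Real.log N ^ C * q * M ^ (2 * h) →
        (Fintype.card ι : ℝ) ≤ M / Real.log N ^ A := by
  classical
  obtain ⟨B0, hB0⟩ : ∃ B0, B0 = C + 2 * h * (A + 1) + 1 := ⟨_, rfl⟩
  obtain ⟨V, hV⟩ : ∃ V, V = W + B0 + 4 := ⟨_, rfl⟩
  obtain ⟨A₁, hA₁⟩ : ∃ A₁, A₁ = 2 * (8 * (2 * h - 1) + C + 1 + 2 * h * ((V + 4) + (V + 3) + (A + 1))) := ⟨_, rfl⟩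
  obtain ⟨B, hB⟩ := hErr A₁ T (V + 8) ρ hρ
  obtain ⟨E1, hE1⟩ : ∃ E1, E1 = max B (V + 8) := ⟨_, rfl⟩
  obtain ⟨N₁, h1⟩ := hB (E1 + 1)
  obtain ⟨N₂, h2⟩ := pg_det V E1 (by rw [hE1]; exact le_trans (by omega) (le_max_right _ _))
  obtain ⟨N₃, h3⟩ := win_count ε hε W B0
  obtain ⟨N₄, h4⟩ := Filter.eventually_atTop.1 (ev_log (V + B0 + 4) (s := 1 / 3) (by norm_num)
    (100 + h + 2 * n₀))
  refine ⟨N₁ + N₂ + N₃ + N₄ + 3, fun N hN q hq1 hqN a ha ι _ s M hM hs hE => ?_⟩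
  have : NeZero q := ⟨by omega⟩
  have hN1 : 1 ≤ N := by omega
  have hN0 : (0 : ℝ) < N := by exact_mod_cast hN1
  have hN1r : (1 : ℝ) ≤ N := by exact_mod_cast hN1
  obtain ⟨hL100', hLp⟩ := h4 N (by omega)
  have c1 := h1 N (by omega)
  have c2 := h2 N (by omega)
  have c3 := h3 N (by omega)
  have hnear := fun z r n y (hn : n ≤ N) (hy : y ≤ N) => cv_near (N := N) (n := n) (y := y) z r hy hn
  have hbLA := bd_LA (N := N)
  have hbFF := fun z r (hP : Par (V + 8) N z r) => bd_FF (z := z) (r := r) hP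
  have hsq := fun (F : ℕ → ℂ) hF => bd_sq (N := N) (F := F) hF
  obtain ⟨L, hLd⟩ : ∃ L, L = Real.log (N : ℝ) := ⟨_, rfl⟩
  rw [← hLd] at c1 c2 c3 hL100' hLp ha hE hnear hbLA hbFF hsq ⊢
  have hh0 : (0 : ℝ) ≤ h := Nat.cast_nonneg _
  have hn₀0 : (0 : ℝ) ≤ n₀ := Nat.cast_nonneg _
  have hL100 : 100 ≤ L := by linarith
  have hLh : (h : ℝ) + 1 ≤ L := by linarith
  have hL0 : 0 < L := by linarith
  have hL1 : 1 ≤ L := by linarith
  have hq0 : (0 : ℝ) < q := by exact_mod_cast hq1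
  -- the parameter `z`
  obtain ⟨z, hz⟩ : ∃ z, z = ⌈L ^ E1⌉₊ := ⟨_, rfl⟩
  have hzlo : L ^ E1 ≤ z := by rw [hz]; exact Nat.le_ceil _
  have hL1B : 1 ≤ L ^ E1 := one_le_pow₀ hL1
  have hzhi : (z : ℝ) ≤ L ^ (E1 + 1) := by
    have := Nat.ceil_lt_add_one (show 0 ≤ L ^ E1 by positivity)
    rw [← hz] at this
    calc (z : ℝ) ≤ L ^ E1 + 1 := this.le
      _ ≤ L ^ E1 + L ^ E1 := by linarith
      _ = 2 * L ^ E1 := by ring
      _ ≤ L * L ^ E1 := mul_le_mul_of_nonneg_right (by linarith) (by positivity)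
      _ = L ^ (E1 + 1) := by ring
  have hzB : L ^ B ≤ z := (pow_le_pow_right₀ hL1 (by rw [hE1]; exact le_max_left _ _)).trans hzlo
  obtain ⟨r, hPar, hsum, hms⟩ := c1 z hzB hzhi
  -- the grid
  obtain ⟨Tg, hTg⟩ : ∃ Tg, Tg = ⌈L ^ (V + 3)⌉₊ := ⟨_, rfl⟩
  have hT1 : L ^ (V + 3) ≤ Tg := by rw [hTg]; exact Nat.le_ceil _
  have hLV : 1 ≤ L ^ (V + 3) := one_le_pow₀ hL1
  have hT2 : (Tg : ℝ) ≤ L ^ (V + 3) + 1 := by
    rw [hTg]
    exact (Nat.ceil_lt_add_one (by positivity)).le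
  have hgcd : ((Nat.gcd (ZMod.val (a : ZMod q)) q : ℕ) : ℝ) ≤ L ^ T := by
    rw [ZMod.val_natCast, ← Nat.gcd_rec, Nat.gcd_comm]
    exact ha
  -- the size of q
  have hqs : (q : ℝ) * L ^ B0 ≤ N := by
    have e1 : (q : ℝ) ≤ (N : ℝ) ^ (2 / 3 : ℝ) :=
      hqN.trans (Real.rpow_le_rpow_of_exponent_le hN1r (by linarith))
    have e2 : L ^ B0 ≤ (N : ℝ) ^ (1 / 3 : ℝ) := (pow_le_pow_right₀ hL1 (by omega)).trans hLp
    calc (q : ℝ) * L ^ B0 ≤ (N : ℝ) ^ (2 / 3 : ℝ) * (N : ℝ) ^ (1 / 3 : ℝ) := by gcongr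
      _ = N := by rw [← Real.rpow_add hN0]; norm_num
  have hqNn : q ≤ N := by
    have e1 : (q : ℝ) ≤ q * L ^ B0 := le_mul_of_one_le_right hq0.le (one_le_pow₀ hL1)
    exact_mod_cast e1.trans hqs
  -- the two parts
  obtain ⟨S1, hS1⟩ : ∃ S1 : Finset ι, S1 = univ.filter (fun i => (s i : ℝ) < N / L ^ B0) := ⟨_, rfl⟩
  obtain ⟨S2, hS2⟩ : ∃ S2 : Finset ι, S2 = univ.filter (fun i => ¬ (s i : ℝ) < N / L ^ B0) := ⟨_, rfl⟩
  have hcard : S1.card + S2.card = Fintype.card ι := by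
    rw [hS1, hS2, card_filter_add_card_filter_not, card_univ]
  have hS1c : (S1.card : ℝ) ≤ M / L ^ (A + 1) := by
    refine few_small_members h C (A + 1) B0 hh hB0 hq1 hN1 hLh hqs a s hM hE S1 ?_
    intro i hi
    rw [hS1, mem_filter] at hi
    exact ⟨(hs i).2.2.2.1, hi.2.le⟩
  obtain ⟨yy, hyy⟩ : ∃ yy : ℕ → ℕ, yy = fun i => min (i * (N / Tg + 1)) N := ⟨_, rfl⟩
  have hyN : ∀ i, yy i ≤ N := fun i => by rw [hyy]; exact min_le_right _ _
  have hJc : (((range (Tg + 1)).card : ℕ) : ℝ) ≤ L ^ (V + 4) := by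
    rw [card_range]
    push_cast
    rw [show V + 4 = (V + 3) + 1 by ring, pow_succ L (V + 3)]
    nlinarith
  have hS2c : (S2.card : ℝ) ≤ M / L ^ (A + 1) := by
    refine few_of_detect h C (V + 4) (V + 3) (A + 1) A₁ hh hA₁ hN1 hqNn (by linarith) (a : ZMod q) s ?_ hM hE LA
      (FF z r) (hsq _ (hbLA hL1) (by linarith)) (hsq _ (hbFF z r hPar (by linarith)) (by linarith))
      (range (Tg + 1)) hJc yy (fun j _ => hyN j) ?_ S2 ?_
    · intro i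
      obtain ⟨a1, a2, a3, a4, a5⟩ := hs i
      exact ⟨a1, a2, (ZMod.natCast_eq_natCast_iff' _ a q).2 a4⟩
    · intro j hj
      exact hms LA (Or.inl rfl) q hqN (a : ZMod q) hgcd (yy j) N (hyN j) le_rfl
    · intro i hi
      rw [hS2, mem_filter, not_lt] at hi
      obtain ⟨a1, a2, a3, a4, a5⟩ := hs i
      by_contra hcon
      push Not at hcon
      apply a5
      have e1 : (N : ℝ) ^ (2 / 3 : ℝ) ≤ s i := by
        refine le_trans ?_ hi.2
        rw [le_div_iff₀ (by positivity)]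
        calc (N : ℝ) ^ (2 / 3 : ℝ) * L ^ B0 ≤ (N : ℝ) ^ (2 / 3 : ℝ) * (N : ℝ) ^ (1 / 3 : ℝ) := by
              have : L ^ B0 ≤ (N : ℝ) ^ (1 / 3 : ℝ) := (pow_le_pow_right₀ hL1 (by omega)).trans hLp
              gcongr
          _ = N := by rw [← Real.rpow_add hN0]; norm_num
      have e2 : 2 / 3 * L ≤ Real.log (s i) := by
        rw [hLd, ← Real.log_rpow hN0]
        exact Real.log_le_log (by positivity) e1
      have e3 : (n₀ : ℝ) ≤ s i := by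
        have := Real.log_le_self (Nat.cast_nonneg (s i) : (0 : ℝ) ≤ s i)
        linarith
      have e4 : n₀ ≤ s i := by exact_mod_cast e3
      refine hQ _ e4 a3 ?_
      have hgood : GoodG (W + B0 + 4) N (s i) := by
        rw [← hV]
        unfold GoodG
        rw [← hLd]
        refine c2 (s i) a2 a3 (by omega) z hzlo hzhi Tg hT1 ?_
        intro j hj
        have k1 := hnear z r (s i) (yy j) a2 (hyN j)
        have k2 := hcon j hj
        have h6 : L * ∑ c ∈ Icc 1 N, |lamz z c - lsh z r c| ≤ N / L ^ (V + 7) := by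
          calc L * ∑ c ∈ Icc 1 N, |lamz z c - lsh z r c| ≤ L * (N / L ^ (V + 8)) :=
                mul_le_mul_of_nonneg_left hsum hL0.le
            _ = N / L ^ (V + 7) := by rw [pow_succ L (V + 7)]; field_simp
        have h7 : (N : ℝ) / L ^ (V + 7) ≤ N / L ^ (V + 3) :=
          div_le_div_of_nonneg_left hN0.le (by positivity) (pow_le_pow_right₀ hL1 (by omega))
        have h8 : (N : ℝ) / L ^ (V + 3) = N / L ^ (V + 2) / L := by rw [pow_succ L (V + 2), div_div]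
        have h9 : (N : ℝ) / L ^ (V + 2) / L ≤ N / L ^ (V + 2) / 100 :=
          div_le_div_of_nonneg_left (by positivity) (by norm_num) hL100
        have h10 : 0 ≤ (N : ℝ) / L ^ (V + 2) := by positivity
        have e : yy j = min (j * (N / Tg + 1)) N := by rw [hyy]
        rw [← e]
        linarith
      intro y₁ y₂ k1 k2 k3
      exact c3 (s i) a2 hi.2 hgood y₁ y₂ k1 k2 k3
  have h5 : (S1.card : ℝ) + S2.card = Fintype.card ι := by exact_mod_cast hcard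
  have h6 : M / L ^ (A + 1) = M / L ^ A / L := by rw [pow_succ, div_div]
  have h7 : 0 ≤ M / L ^ A := by positivity
  have h8 : M / L ^ A / L ≤ M / L ^ A / 100 := div_le_div_of_nonneg_left h7 (by norm_num) hL100
  rw [h6] at hS1c hS2c
  linarith

end Pool.Agent.KS6_25
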